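import Pool.Agent.Q239.MI2.GAM

set_option autoImplicit false

/-! Project MI2 (helper12), job BLK: assembly of section 1. -/

namespace Pool.Agent.Q239.MI2

open Finset Polynomial Q21.MI Q12.MI2

universe u v w

/-- the operator of a block kills the functionals which vanish on the block -/
theorem kills {K : Type u} [Field K] [CharP K 2] (hs : ∀ a : K, ∃ b, b ^ 2 = a) {V W V₀ : Type}
    [AddCommGroup V] [Fintype V] [AddCommGroup W] [AddCommGroup V₀] (T : Tor K V W V₀) (I : Finset V)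
    (Γ : (V →+ K) →ₗ[K] (V →+ K)) (hΓ : ∀ u, Γ (sq u) = T.bq I u) (ζ : V →+ K)
    (hζ : ∀ v ∈ I, ζ v = 0) : Γ ζ = 0 := by
  obtain ⟨rt, h1, h2⟩ := exists_sq (V := V) hs
  rw [← h1 ζ, hΓ]
  unfold Tor.bq
  refine Finset.sum_eq_zero fun v hv => ?_
  have e1 := DFunLike.congr_fun (h1 ζ) v
  have e2 : (rt ζ v) ^ 2 = 0 := by
    rw [← hζ v hv]; exact e1
  rw [pow_eq_zero_iff (by norm_num)] at e2
  rw [e2, zero_smul]

theorem inG_add {K : Type u} [Field K] {V W V₀ : Type}
    [AddCommGroup V] [Fintype V] [AddCommGroup W] [AddCommGroup V₀] (T : Tor K V W V₀)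
    {X Y : (V →+ K) →ₗ[K] (V →+ K)} (hX : T.InG X) (hY : T.InG Y) : T.InG (X + Y) := by
  intro ψ
  obtain ⟨φ, hφ⟩ := hX ψ
  obtain ⟨φ', hφ'⟩ := hY ψ
  refine ⟨φ + φ', fun x => ?_⟩
  rw [AddMonoidHom.add_apply, hφ, hφ']
  rfl

theorem inG_zero {K : Type u} [Field K] {V W V₀ : Type}
    [AddCommGroup V] [Fintype V] [AddCommGroup W] [AddCommGroup V₀] (T : Tor K V W V₀) :
    T.InG (0 : (V →+ K) →ₗ[K] (V →+ K)) := fun ψ => ⟨0, fun x => rfl⟩

theorem inG_sum {K : Type u} [Field K] {V W V₀ : Type}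
    [AddCommGroup V] [Fintype V] [AddCommGroup W] [AddCommGroup V₀] (T : Tor K V W V₀) {ι : Type*}
    (s : Finset ι) (X : ι → (V →+ K) →ₗ[K] (V →+ K)) (hX : ∀ i ∈ s, T.InG (X i)) :
    T.InG (∑ i ∈ s, X i) := by
  classical
  induction s using Finset.induction_on with
  | empty => rw [Finset.sum_empty]; exact inG_zero T
  | insert a s ha ih =>
    rw [Finset.sum_insert ha]
    exact inG_add T (hX a (mem_insert_self _ _)) (ih fun i hi => hX i (mem_insert_of_mem hi))

/-- **job BLK** -/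
theorem blk (j1 : S_BAD.{u}) (j2 : S_SYMH.{u}) (j3 : S_PLN.{u}) (j4 : S_SYMP.{u}) (j5 : S_SYML.{u})
    (j6 : S_GAM.{u}) (j7 : S_HAM.{u}) (j8 : S_LG.{u}) (j9 : S_PG.{u}) : S_BLK.{u} := by
  classical
  intro K _ _ hs V W V₀ _ _ _ _ _ T g hg hstab hinj
  have hB : BadFacts T := j1 K V W V₀ T
  obtain ⟨rt, rt1, rt2⟩ := exists_sq (V := V) hs
  let _ : Fintype W := Fintype.ofFinite W
  have symH : ∀ c, SymOn T (T.blkH c) := by
    intro c
    by_cases h : T.Spl c
    · exact j4 K V W V₀ T hB c (j3 K V W V₀ T hB c h)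
    · exact j2 K V W V₀ T hB c h
  have symL : ∀ l, SymOn T (T.blkL l) := fun l => j5 K V W V₀ T hB l
  choose ΓH hΓH using fun c => j6 K hs V W V₀ T (T.blkH c) (symH c)
  choose ΓL hΓL using fun l => j6 K hs V W V₀ T (T.blkL l) (symL l)
  have memH : ∀ c v, v ∈ T.blkH c ↔ T.HTy v ∧ T.Val c v := by
    intro c v
    unfold Tor.blkH
    rw [Finset.mem_filter]
    simp
  have memL : ∀ l v, v ∈ T.blkL l ↔ T.LTy v ∧ (fun x => lam K T.β v x) = l := by
    intro l v
    unfold Tor.blkL
    rw [Finset.mem_filter]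
    simp
  have hlam0 : ∀ v x, T.β v x = 0 → lam K T.β v x = 0 := by
    intro v x h
    unfold lam
    rw [if_pos h]
  -- a bad vector with value `c` commutes with the elements of the other blocks
  have commH : ∀ c c' y w, c ≠ c' → Bad T.β y → T.Val c y → w ∈ T.blkH c' → T.β y w = 0 := by
    intro c c' y w hcc hy hyc hw
    by_contra hne
    obtain ⟨hwH, hwc⟩ := (memH c' w).1 hw
    obtain ⟨n1, n2⟩ := hB.noncomm y w hy hwH.1 hne
    have e1 := hB.valuniq y _ _ hy.1 n1 hyc
    have e2 := hB.valuniq w _ _ hwH.1.1 n2 hwc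
    exact hcc (e1.symm.trans e2)
  have commL : ∀ l y w, Bad T.β y → w ∈ T.blkL l → T.β y w = 0 := by
    intro l y w hy hw
    rw [hB.sym]
    exact ((memL l w).1 hw).1.2 y hy
  -- the values of `ΓH c` vanish on the other blocks
  have valH : ∀ c (I : Finset V), (∀ y, Bad T.β y → T.Val c y → ∀ w ∈ I, T.β y w = 0) →
      ∀ ζ, ∀ w ∈ I, ΓH c ζ w = 0 := by
    intro c I hI ζ w hw
    rw [← rt1 ζ, hΓH]
    unfold Tor.bq
    rw [AddMonoidHom.finsetSum_apply]
    refine Finset.sum_eq_zero fun v hv => ?_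
    obtain ⟨hvH, hvc⟩ := (memH c v).1 hv
    obtain ⟨hvb, v', hv'b, hne⟩ := hvH
    obtain ⟨n1, n2⟩ := hB.noncomm v v' hvb hv'b hne
    have e1 := hB.valuniq v _ _ hvb.1 n1 hvc
    rw [e1] at n2
    show (rt ζ v) * (T.μ v (rt ζ) w) = 0
    rw [hB.plane v v' (rt ζ) hvb hv'b hne w, hlam0 v w (hI v hvb hvc w hw),
      hlam0 v' w (hI v' hv'b n2 w hw)]
    ring
  have zeroHH : ∀ c c', c ≠ c' → ΓH c' * ΓH c = 0 := by
    intro c c' hcc
    refine LinearMap.ext fun ζ => ?_
    show ΓH c' (ΓH c ζ) = 0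
    exact kills hs T (T.blkH c') (ΓH c') (hΓH c') _
      (valH c (T.blkH c') (fun y hy hyc w hw => commH c c' y w hcc hy hyc hw) ζ)
  have zeroLH : ∀ c l, ΓL l * ΓH c = 0 := by
    intro c l
    refine LinearMap.ext fun ζ => ?_
    show ΓL l (ΓH c ζ) = 0
    exact kills hs T (T.blkL l) (ΓL l) (hΓL l) _
      (valH c (T.blkL l) (fun y hy _ w hw => commL l y w hy hw) ζ)
  -- the decomposition of `g`
  set LS : Finset (V → K) := univ.image (fun v : V => fun x => lam K T.β v x) with hLS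
  have hgsum : g = ∑ c, ΓH c + ∑ l ∈ LS, ΓL l := by
    refine LinearMap.ext fun ζ => ?_
    rw [← rt1 ζ, hg]
    set u := rt ζ with hu
    rw [LinearMap.add_apply, LinearMap.sum_apply, LinearMap.sum_apply]
    simp only [hΓH, hΓL, Tor.bq]
    have hind : ∀ v, (if v ∈ Tor.nz V then u v • T.μ v u else 0) =
        ∑ c, (if v ∈ T.blkH c then u v • T.μ v u else 0) +
        ∑ l ∈ LS, (if v ∈ T.blkL l then u v • T.μ v u else 0) := by
      intro v
      by_cases hF : u v • T.μ v u = 0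
      · rw [hF]; simp
      by_cases hv0 : v = 0
      · have h1 : v ∉ Tor.nz V := by
          unfold Tor.nz; simp [hv0]
        have h2 : ∀ c, v ∉ T.blkH c := fun c h => ((memH c v).1 h).1.1.1 hv0
        have h3 : ∀ l, v ∉ T.blkL l := fun l h => ((memL l v).1 h).1.1.1 hv0
        rw [if_neg h1]
        simp only [h2, h3, if_false, Finset.sum_const_zero, add_zero]
      · have h1 : v ∈ Tor.nz V := by
          unfold Tor.nz; simp [hv0]
        rw [if_pos h1]
        have hμ : T.μ v u ≠ 0 := by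
          intro h; apply hF; rw [h, smul_zero]
        have hbad : Bad T.β v := (T.hT v hv0 u hμ).1
        by_cases hH : ∃ v', Bad T.β v' ∧ T.β v v' ≠ 0
        · obtain ⟨v', hv', hne⟩ := hH
          have hHT : T.HTy v := ⟨hbad, v', hv', hne⟩
          have hc : T.Val (T.β v v') v := (hB.noncomm v v' hbad hv' hne).1
          have h3 : ∀ l, v ∉ T.blkL l := fun l h => hne (((memL l v).1 h).1.2 v' hv')
          simp only [h3, if_false, Finset.sum_const_zero, add_zero]
          rw [Finset.sum_eq_single (T.β v v')]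
          · rw [if_pos ((memH _ _).2 ⟨hHT, hc⟩)]
          · intro c _ hcne
            rw [if_neg]
            intro h
            exact hcne (hB.valuniq v _ _ hv0 ((memH _ _).1 h).2 hc)
          · intro h; exact absurd (mem_univ _) h
        · push Not at hH
          have hL : T.LTy v := ⟨hbad, hH⟩
          have h2 : ∀ c, v ∉ T.blkH c := by
            intro c h
            obtain ⟨-, v', hv', hne⟩ := ((memH c v).1 h).1
            exact hne (hH v' hv')
          simp only [h2, if_false, Finset.sum_const_zero, zero_add]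
          rw [Finset.sum_eq_single (fun x => lam K T.β v x)]
          · rw [if_pos ((memL _ _).2 ⟨hL, rfl⟩)]
          · intro l _ hlne
            rw [if_neg]
            intro h
            exact hlne ((memL _ _).1 h).2.symm
          · intro h
            exact absurd (mem_image.2 ⟨v, mem_univ _, rfl⟩) h
    have e0 : ∑ v ∈ Tor.nz V, u v • T.μ v u = ∑ v, (if v ∈ Tor.nz V then u v • T.μ v u else 0) := by
      rw [Finset.sum_ite_mem, Finset.univ_inter]
    have e1 : ∀ c, ∑ v ∈ T.blkH c, u v • T.μ v u = ∑ v, (if v ∈ T.blkH c then u v • T.μ v u else 0) := by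
      intro c
      rw [Finset.sum_ite_mem, Finset.univ_inter]
    have e2 : ∀ l, ∑ v ∈ T.blkL l, u v • T.μ v u = ∑ v, (if v ∈ T.blkL l then u v • T.μ v u else 0) := by
      intro l
      rw [Finset.sum_ite_mem, Finset.univ_inter]
    rw [e0, Finset.sum_congr rfl fun v _ => hind v, Finset.sum_add_distrib, Finset.sum_comm,
      Finset.sum_congr rfl fun c _ => (e1 c).symm]
    congr 1
    rw [Finset.sum_comm]
    exact Finset.sum_congr rfl fun l _ => (e2 l).symm
  -- the operators in the Lie algebra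
  have inL : ∀ l, T.InG (ΓL l) := fun l => j8 K hs V W V₀ T hB l (ΓL l) (hΓL l)
  have inH : ∀ c, T.Spl c → T.InG (ΓH c) := by
    intro c hc
    refine j9 K hs V W V₀ T hB c (j3 K V W V₀ T hB c hc) (symH c) (ΓH c) g (hΓH c) hstab hinj ?_
    intro y ζ hy hζ
    by_cases hy0 : y = 0
    · have : ζ = 0 := by
        ext x
        rw [hζ x, hlam0 y x (by rw [hy0]; simp)]
        rfl
      rw [this, map_zero, map_zero]
    have hyb : Bad T.β y := ⟨hy0, c, hy⟩
    rw [hgsum, LinearMap.add_apply, LinearMap.sum_apply, LinearMap.sum_apply]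
    have s1 : ∑ l ∈ LS, ΓL l ζ = 0 := by
      refine Finset.sum_eq_zero fun l _ => kills hs T (T.blkL l) (ΓL l) (hΓL l) ζ fun w hw => ?_
      rw [hζ, hlam0 y w (commL l y w hyb hw)]
    rw [s1, add_zero, Finset.sum_eq_single c]
    · intro c' _ hc'
      refine kills hs T (T.blkH c') (ΓH c') (hΓH c') ζ fun w hw => ?_
      rw [hζ, hlam0 y w (commH c c' y w (Ne.symm hc') hyb hy hw)]
    · intro h; exact absurd (mem_univ _) h
  -- products
  have hprod : ∀ s : Finset W, (∀ c ∈ s, ¬ T.Spl c) →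
      (1 + ∑ c ∈ s, ΓH c : Module.End K (V →+ K)) ∈ Submonoid.closure {N : Module.End K (V →+ K) | T.Trans N} := by
    intro s
    induction s using Finset.induction_on with
    | empty =>
      intro _
      rw [Finset.sum_empty, add_zero]
      exact Submonoid.one_mem _
    | insert c s hcs ih =>
      intro hsp
      have h1 := ih fun c' hc' => hsp c' (mem_insert_of_mem hc')
      have h2 := j7 K hs V W V₀ T hB c (hsp c (mem_insert_self _ _)) (symH c) (ΓH c) (hΓH c)
      have h3 := Submonoid.mul_mem _ h1 h2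
      have e1 : (1 + ∑ c ∈ s, ΓH c : Module.End K (V →+ K)) * (1 + ΓH c) =
          1 + ∑ c' ∈ insert c s, ΓH c' := by
        have e2 : (∑ c' ∈ s, ΓH c' : Module.End K (V →+ K)) * ΓH c = 0 := by
          rw [Finset.sum_mul]
          refine Finset.sum_eq_zero fun c' hc' => ?_
          exact zeroHH c c' (fun h => hcs (by rw [h]; exact hc'))
        rw [Finset.sum_insert hcs, mul_add, mul_one, add_mul, one_mul, e2, add_zero]
        abel
      rwa [e1] at h3
  set S1 : Finset W := univ.filter (fun c => T.Spl c) with hS1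
  set S2 : Finset W := univ.filter (fun c => ¬ T.Spl c) with hS2
  refine ⟨1 + ∑ c ∈ S2, ΓH c, ∑ l ∈ LS, ΓL l + ∑ c ∈ S1, ΓH c,
    hprod S2 (fun c hc => (mem_filter.1 hc).2), ?_, ?_⟩
  · exact inG_add T (inG_sum T LS _ fun l _ => inL l)
      (inG_sum T S1 _ fun c hc => inH c (mem_filter.1 hc).2)
  · have hsplit : (∑ c, ΓH c) = ∑ c ∈ S1, ΓH c + ∑ c ∈ S2, ΓH c :=
      (Finset.sum_filter_add_sum_filter_not univ (fun c => T.Spl c) _).symm
    have z1 : (∑ l ∈ LS, ΓL l : Module.End K (V →+ K)) * (∑ c ∈ S2, ΓH c) = 0 := by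
      rw [Finset.sum_mul]
      refine Finset.sum_eq_zero fun l _ => ?_
      rw [Finset.mul_sum]
      exact Finset.sum_eq_zero fun c _ => zeroLH c l
    have z2 : (∑ c ∈ S1, ΓH c : Module.End K (V →+ K)) * (∑ c ∈ S2, ΓH c) = 0 := by
      rw [Finset.sum_mul]
      refine Finset.sum_eq_zero fun c' hc' => ?_
      rw [Finset.mul_sum]
      refine Finset.sum_eq_zero fun c hc => ?_
      refine zeroHH c c' fun h => ?_
      rw [h] at hc
      exact (mem_filter.1 hc).2 (mem_filter.1 hc').2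
    have e3 : (1 + (∑ l ∈ LS, ΓL l + ∑ c ∈ S1, ΓH c) : Module.End K (V →+ K)) * (1 + ∑ c ∈ S2, ΓH c) =
        1 + (∑ l ∈ LS, ΓL l + ∑ c ∈ S1, ΓH c) + ∑ c ∈ S2, ΓH c +
          ((∑ l ∈ LS, ΓL l : Module.End K (V →+ K)) * (∑ c ∈ S2, ΓH c) +
            (∑ c ∈ S1, ΓH c : Module.End K (V →+ K)) * (∑ c ∈ S2, ΓH c)) := by
      noncomm_ring
    rw [e3, z1, z2, hgsum, hsplit]
    abel

end Pool.Agent.Q239.MI2
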