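import Pool.Agent.Q12.MI2.Stm

set_option autoImplicit false

/-! Project MI2 (helper12), jobs GAM, INJ, LG. -/

namespace Pool.Agent.Q239.MI2

open Finset Polynomial Q21.MI Q12.MI2

universe u v w

/-- every additive function is a Frobenius twist -/
theorem exists_sq {K : Type u} [Field K] [CharP K 2] (hs : ∀ a : K, ∃ b, b ^ 2 = a) {V : Type}
    [AddCommGroup V] : ∃ rt : (V →+ K) → (V →+ K), (∀ ζ, sq (rt ζ) = ζ) ∧ (∀ u, rt (sq u) = u) := by
  choose s hsq using hs
  have hinj : ∀ a b : K, a ^ 2 = b ^ 2 → a = b := by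
    intro a b h
    exact frobenius_inj K 2 (by simpa [frobenius_def] using h)
  refine ⟨fun ζ => { toFun := fun v => s (ζ v), map_zero' := ?_, map_add' := ?_ }, ?_, ?_⟩
  · apply hinj
    rw [hsq]; simp
  · intro x y
    apply hinj
    rw [hsq, add_pow_char, hsq, hsq, map_add]
  · intro ζ
    ext v
    exact hsq _
  · intro u
    ext v
    exact hinj _ _ (hsq _)

theorem two_smul_zero {K : Type u} [Field K] [CharP K 2] {V : Type} [AddCommGroup V] (f : V →+ K) :
    f + f = 0 := by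
  ext v
  simp only [AddMonoidHom.add_apply, AddMonoidHom.zero_apply]
  exact CharTwo.add_self_eq_zero _

/-- **job GAM** -/
theorem gam : S_GAM.{u} := by
  intro K _ _ hs V W V₀ _ _ _ _ T I hsym
  obtain ⟨rt, h1, h2⟩ := exists_sq (V := V) hs
  have radd : ∀ ζ ζ', rt (ζ + ζ') = rt ζ + rt ζ' := by
    intro ζ ζ'
    have : sq (rt ζ + rt ζ') = ζ + ζ' := by
      ext v
      show (rt ζ v + rt ζ' v) ^ 2 = ζ v + ζ' v
      rw [add_pow_char]
      have e1 := DFunLike.congr_fun (h1 ζ) v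
      have e2 := DFunLike.congr_fun (h1 ζ') v
      exact congrArg₂ (· + ·) e1 e2
    rw [← this, h2]
  have rsmul : ∀ (c : K) (ζ : V →+ K), rt (c ^ 2 • ζ) = c • rt ζ := by
    intro c ζ
    have : sq (c • rt ζ) = c ^ 2 • ζ := by
      ext v
      show (c * rt ζ v) ^ 2 = c ^ 2 * ζ v
      rw [mul_pow]
      have e1 := DFunLike.congr_fun (h1 ζ) v
      exact congrArg (c ^ 2 * ·) e1
    rw [← this, h2]
  have badd : ∀ u u', T.bq I (u + u') = T.bq I u + T.bq I u' := by
    intro u u'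
    unfold Tor.bq
    have e1 : ∑ v ∈ I, (u + u') v • T.μ v (u + u') = (∑ v ∈ I, u v • T.μ v u + ∑ v ∈ I, u' v • T.μ v u') +
        (∑ v ∈ I, u v • T.μ v u' + ∑ v ∈ I, u' v • T.μ v u) := by
      rw [← Finset.sum_add_distrib, ← Finset.sum_add_distrib, ← Finset.sum_add_distrib]
      refine Finset.sum_congr rfl fun v _ => ?_
      rw [map_add, AddMonoidHom.add_apply, add_smul, smul_add, smul_add]
      abel
    rw [e1, hsym u u', two_smul_zero, add_zero]
  have bsmul : ∀ (c : K) u, T.bq I (c • u) = c ^ 2 • T.bq I u := by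
    intro c u
    unfold Tor.bq
    rw [Finset.smul_sum]
    refine Finset.sum_congr rfl fun v _ => ?_
    rw [map_smul, smul_smul, smul_smul]
    congr 1
    show c * u v * c = c ^ 2 * u v
    ring
  refine ⟨{ toFun := fun ζ => T.bq I (rt ζ), map_add' := ?_, map_smul' := ?_ }, ?_⟩
  · intro ζ ζ'
    rw [radd, badd]
  · intro a ζ
    obtain ⟨c, rfl⟩ := hs a
    rw [rsmul, bsmul]
    rfl
  · intro u
    show T.bq I (rt (sq u)) = _
    rw [h2]

/-- **job INJ** -/
theorem inj : S_INJ.{u} := by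
  classical
  intro K _ _ V W V₀ _ _ _ _ T hB c a ha hx θ
  let _ : Module (ZMod 2) V := AddCommGroup.zmodModule (n := 2) (fun x => by rw [two_nsmul]; exact T.hV x)
  have hlam01 : ∀ v x, lam K T.β v x = if T.β v x = 0 then 0 else 1 := fun v x => rfl
  -- the subspace
  let Y : Submodule (ZMod 2) V := AddSubgroup.toZModSubmodule 2
    { carrier := {v | T.Val c v}
      zero_mem' := fun x => Or.inl (by simp)
      add_mem' := fun {v v'} hv hv' => hB.yadd c v v' hv hv'
      neg_mem' := fun {v} hv => by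
        have : -v = v := neg_eq_of_add_eq_zero_left (T.hV v)
        show T.Val c (-v)
        rw [this]; exact hv }
  have hY : ∀ v, v ∈ Y ↔ T.Val c v := fun v => Iff.rfl
  -- the functions
  let bit : V → V → ZMod 2 := fun v x => if T.β v x = 0 then 0 else 1
  have hbit : ∀ v x, ZMod.castHom (dvd_refl 2) K (bit v x) = lam K T.β v x := by
    intro v x
    simp only [bit, lam]
    split_ifs <;> simp
  have hcinj : Function.Injective (ZMod.castHom (dvd_refl 2) K) := (ZMod.castHom (dvd_refl 2) K).injective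
  let Φ0 : Y →+ (V → ZMod 2) :=
    { toFun := fun y x => bit y x
      map_zero' := by
        funext x
        apply hcinj
        rw [hbit]
        simp [lam]
      map_add' := fun y y' => by
        funext x
        apply hcinj
        rw [Pi.add_apply, map_add, hbit, hbit, hbit]
        exact hB.lamadd c y y' ((hY y).1 y.2) ((hY y').1 y'.2) x }
  let Φ : Y →ₗ[ZMod 2] (V → ZMod 2) := Φ0.toZModLinearMap 2
  have hΦ : ∀ (y : Y) x, Φ y x = bit y x := fun y x => rfl
  have hinj : LinearMap.ker Φ = ⊥ := by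
    rw [LinearMap.ker_eq_bot]
    intro y y' h
    apply Subtype.ext
    refine hB.laminj c y y' ((hY y).1 y.2) ((hY y').1 y'.2) fun x => ?_
    rw [← hbit, ← hbit, ← hΦ, ← hΦ, h]
  obtain ⟨Ψ, hΨ⟩ := Φ.exists_leftInverse_of_injective hinj
  let g : (V → ZMod 2) →+ K := (θ.comp Y.subtype.toAddMonoidHom).comp Ψ.toAddMonoidHom
  have hg : ∀ f : V → ZMod 2, g f = ∑ x, ZMod.castHom (dvd_refl 2) K (f x) * g (Pi.single x 1) := by
    intro f
    have e1 : f = ∑ x, Pi.single x (f x) := by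
      rw [Finset.univ_sum_single]
    conv_lhs => rw [e1, map_sum]
    refine Finset.sum_congr rfl fun x _ => ?_
    have : f x = 0 ∨ f x = 1 := by
      generalize f x = t
      revert t; decide
    rcases this with h | h
    · rw [h]; simp
    · rw [h]; simp
  have hθ : ∀ v, T.Val c v → θ v = ∑ x, lam K T.β v x * g (Pi.single x 1) := by
    intro v hv
    have e1 : θ v = g (Φ ⟨v, hv⟩) := by
      show θ v = θ ((Ψ (Φ ⟨v, hv⟩) : Y) : V)
      have : Ψ (Φ ⟨v, hv⟩) = ⟨v, hv⟩ := LinearMap.congr_fun hΨ _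
      rw [this]
    rw [e1, hg]
    refine Finset.sum_congr rfl fun x _ => ?_
    rw [hΦ, hbit]
  have e1 : ∀ v, a v * θ v = ∑ x, a v * lam K T.β v x * g (Pi.single x 1) := by
    intro v
    by_cases h : a v = 0
    · rw [h]; simp
    · rw [hθ v (ha v h), Finset.mul_sum]
      exact Finset.sum_congr rfl fun x _ => by ring
  rw [Finset.sum_congr rfl fun v _ => e1 v, Finset.sum_comm]
  refine Finset.sum_eq_zero fun x _ => ?_
  rw [← Finset.sum_mul, hx x, zero_mul]

/-- **job LG** -/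
theorem lg : S_LG.{u} := by
  classical
  intro K _ _ hs V W V₀ _ _ _ _ T hB l Γ hΓ ψ
  obtain ⟨rt, h1, h2⟩ := exists_sq (V := V) hs
  have hmem : ∀ v, v ∈ T.blkL l ↔ T.LTy v ∧ (fun x => lam K T.β v x) = l := by
    intro v
    unfold Tor.blkL
    rw [Finset.mem_filter]
    simp
  -- functionals vanishing on the block
  have hvan : ∀ ζ : V →+ K, (∀ v ∈ T.blkL l, ζ v = 0) → Γ ζ = 0 := by
    intro ζ hζ
    rw [← h1 ζ, hΓ]
    unfold Tor.bq
    refine Finset.sum_eq_zero fun v hv => ?_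
    have e1 := DFunLike.congr_fun (h1 ζ) v
    have e2 : (rt ζ v) ^ 2 = 0 := by
      rw [← hζ v hv]; exact e1
    rw [pow_eq_zero_iff (by norm_num)] at e2
    rw [e2, zero_smul]
  rcases (T.blkL l).eq_empty_or_nonempty with hemp | ⟨v0, hv0⟩
  · refine ⟨0, fun x => ?_⟩
    dsimp only
    rw [hvan _ (by rw [hemp]; simp)]
    rfl
  obtain ⟨hv0L, hv0l⟩ := (hmem v0).1 hv0
  have hlam : ∀ v ∈ T.blkL l, ∀ x, lam K T.β v x = l x := fun v hv x => congrFun ((hmem v).1 hv).2 x
  obtain ⟨x₀, hx₀⟩ : ∃ x₀, T.β v0 x₀ ≠ 0 := by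
    by_contra hcon
    push Not at hcon
    exact hv0L.1.1 (T.nondeg v0 hcon)
  have hne : ∀ v ∈ T.blkL l, ∀ x, (T.β v x = 0 ↔ l x = 0) := by
    intro v hv x
    rw [← hlam v hv x]
    unfold lam
    split_ifs with h <;> simp [h]
  have hval : ∀ v ∈ T.blkL l, ∀ x, l x ≠ 0 → T.β v x = T.β v x₀ ∧ l x = 1 := by
    intro v hv x hx
    obtain ⟨c, hc⟩ := ((hmem v).1 hv).1.1.2
    have e0 : T.β v x₀ ≠ 0 := by
      intro h
      exact hx₀ ((hne v0 hv0 x₀).2 ((hne v hv x₀).1 h))
    have e1 : T.β v x ≠ 0 := fun h => hx ((hne v hv x).1 h)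
    refine ⟨((hc x).resolve_left e1).trans ((hc x₀).resolve_left e0).symm, ?_⟩
    rw [← hlam v hv x]
    unfold lam
    rw [if_neg e1]
  have hlin : ∀ x, Γ (ψ.comp (T.β x)) = l x • Γ (ψ.comp (T.β x₀)) := by
    intro x
    rw [← map_smul, ← sub_eq_zero, ← map_sub]
    apply hvan
    intro v hv
    show ψ (T.β x v) - l x * ψ (T.β x₀ v) = 0
    rw [hB.sym x v, hB.sym x₀ v]
    by_cases hx : l x = 0
    · rw [(hne v hv x).2 hx, hx, map_zero, zero_mul, sub_zero]
    · obtain ⟨e1, e2⟩ := hval v hv x hx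
      rw [e1, e2, one_mul, sub_self]
  set u := rt (ψ.comp (T.β x₀)) with hu
  have hsu : sq u = ψ.comp (T.β x₀) := h1 _
  have hφ : ∀ v : V, ∃ φ : W →+ K, v ∈ T.blkL l → ∀ x : V₀, φ (T.q x) = l (T.p x) * T.μ v u (T.p x) := by
    intro v
    by_cases hv : v ∈ T.blkL l
    · by_cases hμ : T.μ v u = 0
      · exact ⟨0, fun _ x => by rw [hμ]; simp⟩
      · obtain ⟨-, φ, hφ⟩ := T.hT v ((hmem v).1 hv).1.1.1 u hμ
        exact ⟨φ, fun _ x => by rw [hφ, hlam v hv]⟩
    · exact ⟨0, fun h => absurd h hv⟩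
  choose φ hφ using hφ
  refine ⟨∑ v ∈ T.blkL l, u v • φ v, fun x => ?_⟩
  dsimp only
  rw [hlin, ← hsu, hΓ]
  unfold Tor.bq
  rw [AddMonoidHom.finsetSum_apply]
  show _ = l (T.p x) * (∑ v ∈ T.blkL l, u v • T.μ v u) (T.p x)
  rw [AddMonoidHom.finsetSum_apply, Finset.mul_sum]
  refine Finset.sum_congr rfl fun v hv => ?_
  show u v * φ v (T.q x) = l (T.p x) * (u v * T.μ v u (T.p x))
  rw [hφ v hv x]
  ring

end Pool.Agent.Q239.MI2
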